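import Pool.Agent.Helper80.CS.Defs

/-!
# CS-ASY: asymptotics

Let `p δ = 2 arcsin (1 - 2δ) → π` as `δ → 0`. Given `0 < c < π/e` choose `δ` with `c < p δ / e`, then `K`
with `c < c' := p δ / e * exp (-1/(δ √K))`. The hypothesis gives
`N ≥ (c')^n * √((n+1)^(n+1)) / (n+1)^(K+1) ≥ (c' √n)^n / (n+1)^(K+1)`, and `(c'/c)^n ≥ (n+1)^(K+1)` for
large `n`.
-/

set_option autoImplicit false

namespace Pool.Agent.Helper80.CS

open Filter Topology in
private theorem asy_pow (K : ℕ) (r : ℝ) (hr : 1 < r) :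
    ∀ᶠ n : ℕ in atTop, ((n : ℝ) + 1) ^ (K + 1) ≤ r ^ n := by
  have h1 := tendsto_pow_const_div_const_pow_of_one_lt (K + 1) hr
  have h2 := h1.comp (tendsto_add_atTop_nat 1)
  have hr0 : 0 < r := by linarith
  have h3 : (0 : ℝ) < 1 / r := by positivity
  filter_upwards [h2.eventually (gt_mem_nhds h3)] with n hn
  simp only [Function.comp] at hn
  rw [div_lt_div_iff₀ (by positivity) hr0, one_mul, pow_succ] at hn
  push_cast at hn
  have h4 : ((n : ℝ) + 1) ^ (K + 1) * r < r ^ n * r := hn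
  exact (lt_of_mul_lt_mul_right h4 hr0.le).le

open Filter Topology in
theorem asy (c : ℝ) (hc0 : 0 < c) (hc : c < Real.pi / Real.exp 1) :
    ∃ n₀ : ℕ, ∀ n ≥ n₀, ∀ N : ℕ,
      (∀ K : ℕ, 1 ≤ K → ∀ δ : ℝ, 0 < δ → δ < 1 / 2 →
        (2 * Real.arcsin (1 - 2 * δ)) ^ n * √(((n : ℝ) + 1) ^ (n + 1)) ≤
          N * ((n : ℝ) + 1) ^ K * (Real.exp n * (n + 1)) * Real.exp (n / (δ * √K))) →
      (c * √n) ^ n ≤ N := by
  have he : 0 < Real.exp 1 := Real.exp_pos 1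
  -- the choice of `δ`
  obtain ⟨δ, hδ0, hδ1, hδ⟩ : ∃ δ : ℝ, 0 < δ ∧ δ < 1 / 2 ∧
      c < 2 * Real.arcsin (1 - 2 * δ) / Real.exp 1 := by
    have hcont : Continuous (fun δ : ℝ => 2 * Real.arcsin (1 - 2 * δ) / Real.exp 1) := by
      have := Real.continuous_arcsin.comp
        (continuous_const.sub (continuous_const.mul continuous_id) : Continuous fun δ : ℝ => 1 - 2 * δ)
      exact (continuous_const.mul this).div_const _
    have h0 : c < (fun δ : ℝ => 2 * Real.arcsin (1 - 2 * δ) / Real.exp 1) 0 := by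
      simp only [mul_zero, sub_zero, Real.arcsin_one]
      have : 2 * (Real.pi / 2) = Real.pi := by ring
      rw [this]
      exact hc
    have h1 : ∀ᶠ δ : ℝ in 𝓝[>] 0, c < 2 * Real.arcsin (1 - 2 * δ) / Real.exp 1 :=
      (hcont.continuousAt.eventually (lt_mem_nhds h0)).filter_mono nhdsWithin_le_nhds
    have h2 : ∀ᶠ δ : ℝ in 𝓝[>] 0, δ ∈ Set.Ioo (0 : ℝ) (1 / 2) :=
      Ioo_mem_nhdsGT (by norm_num)
    obtain ⟨δ, h3, h4⟩ := (h1.and h2).exists
    exact ⟨δ, h4.1, h4.2, h3⟩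
  set a : ℝ := 2 * Real.arcsin (1 - 2 * δ) / Real.exp 1 with ha
  -- the choice of `K`
  obtain ⟨K, hK1, hK⟩ : ∃ K : ℕ, 1 ≤ K ∧ c < a * Real.exp (-(1 / (δ * √K))) := by
    have h1 : Tendsto (fun K : ℕ => δ * √(K : ℝ)) atTop atTop :=
      (Real.tendsto_sqrt_atTop.comp tendsto_natCast_atTop_atTop).const_mul_atTop hδ0
    have h2 : Tendsto (fun K : ℕ => -(1 / (δ * √(K : ℝ)))) atTop (𝓝 (-0)) :=
      (tendsto_const_nhds.div_atTop h1).neg
    have h3 : Tendsto (fun K : ℕ => a * Real.exp (-(1 / (δ * √(K : ℝ))))) atTop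
        (𝓝 (a * Real.exp (-0))) := ((Real.continuous_exp.tendsto _).comp h2).const_mul a
    have h4 : c < a * Real.exp (-0) := by
      rw [neg_zero, Real.exp_zero, mul_one]
      exact hδ
    obtain ⟨K, h5, h6⟩ := ((h3.eventually (lt_mem_nhds h4)).and (eventually_ge_atTop 1)).exists
    exact ⟨K, h6, h5⟩
  set c' : ℝ := a * Real.exp (-(1 / (δ * √K))) with hc'
  have hr : 1 < c' / c := (one_lt_div hc0).2 hK
  obtain ⟨n₀, hn₀⟩ := eventually_atTop.1 (asy_pow K (c' / c) hr)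
  refine ⟨n₀, fun n hn N hN => ?_⟩
  have h1 := hN K hK1 δ hδ0 hδ1
  have h2 := hn₀ n hn
  have hn1 : (0 : ℝ) < (n : ℝ) + 1 := by positivity
  -- rewriting of the hypothesis
  have h3 : c' ^ n * √(((n : ℝ) + 1) ^ (n + 1)) ≤ N * ((n : ℝ) + 1) ^ (K + 1) := by
    have e1 : c' ^ n * (Real.exp n * Real.exp (n / (δ * √K))) =
        (2 * Real.arcsin (1 - 2 * δ)) ^ n := by
      have e2 : Real.exp (n : ℝ) = Real.exp 1 ^ n := by
        rw [← Real.exp_nat_mul, mul_one]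
      have e3 : Real.exp ((n : ℝ) / (δ * √K)) = Real.exp (1 / (δ * √K)) ^ n := by
        rw [← Real.exp_nat_mul]
        congr 1
        ring
      rw [e2, e3, ← mul_pow, ← mul_pow]
      congr 1
      rw [hc', ha, Real.exp_neg]
      have := Real.exp_pos (1 / (δ * √K))
      field_simp
    have hE : 0 < Real.exp n * Real.exp (n / (δ * √K)) := by positivity
    rw [← e1] at h1
    refine le_of_mul_le_mul_right ?_ hE
    calc c' ^ n * √(((n : ℝ) + 1) ^ (n + 1)) * (Real.exp n * Real.exp (n / (δ * √K)))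
        = c' ^ n * (Real.exp n * Real.exp (n / (δ * √K))) * √(((n : ℝ) + 1) ^ (n + 1)) := by ring
      _ ≤ N * ((n : ℝ) + 1) ^ K * (Real.exp n * (n + 1)) * Real.exp (n / (δ * √K)) := h1
      _ = N * ((n : ℝ) + 1) ^ (K + 1) * (Real.exp n * Real.exp (n / (δ * √K))) := by ring
  have h4 : √(n : ℝ) ^ n ≤ √(((n : ℝ) + 1) ^ (n + 1)) := by
    refine Real.le_sqrt_of_sq_le ?_
    rw [← pow_mul, mul_comm n 2, pow_mul, Real.sq_sqrt (Nat.cast_nonneg n)]
    calc (n : ℝ) ^ n ≤ ((n : ℝ) + 1) ^ n := pow_le_pow_left₀ (Nat.cast_nonneg n) (by linarith) n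
      _ ≤ ((n : ℝ) + 1) ^ (n + 1) := pow_le_pow_right₀ (by linarith [(Nat.cast_nonneg n : (0 : ℝ) ≤ n)])
          (Nat.le_succ n)
  have hc'0 : 0 < c' := hc0.trans hK
  have h5 : c ^ n * ((n : ℝ) + 1) ^ (K + 1) ≤ c' ^ n := by
    rw [div_pow, le_div_iff₀ (by positivity)] at h2
    linarith
  have h6 : (0 : ℝ) < ((n : ℝ) + 1) ^ (K + 1) := by positivity
  refine le_of_mul_le_mul_right ?_ h6
  calc (c * √(n : ℝ)) ^ n * ((n : ℝ) + 1) ^ (K + 1)
      = c ^ n * ((n : ℝ) + 1) ^ (K + 1) * √(n : ℝ) ^ n := by rw [mul_pow]; ring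
    _ ≤ c' ^ n * √(n : ℝ) ^ n := mul_le_mul_of_nonneg_right h5 (by positivity)
    _ ≤ c' ^ n * √(((n : ℝ) + 1) ^ (n + 1)) := mul_le_mul_of_nonneg_left h4 (by positivity)
    _ ≤ N * ((n : ℝ) + 1) ^ (K + 1) := h3

end Pool.Agent.Helper80.CS
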