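import Pool.Agent.Helper80.CS.Defs

/-!
# CS-HAD: Hadamard's inequality with weights

Let `A i j = √(μ i) * (MM v i j - c j)` with `c 0 = 0`, `c (j+1) = XX μ v j` (subtracting multiples of
the column `0`, which is constant 1, from the other columns does not change the determinant:
`Matrix.det_eq_of_forall_col_eq_smul_add_const` or similar). `|det A| = √(∏ μ i) * |det (MM v)|`
(`Matrix.det_mul_column`). The column `0` of `A` has norm `1`, the column `j+1` has
`norm^2 = ∑ μ i * (v i j)^2 - X j^2 ≤ X j - X j^2`. Hadamard's inequality `|det A| ≤ ∏ ‖column‖`: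
`Orientation.abs_volumeForm_apply_le` in `EuclideanSpace ℝ (Fin (n+1))` with
`Orientation.volumeForm_robust` (orthonormal basis `EuclideanSpace.basisFun`,
`Basis.det_apply`, `Matrix.det_transpose`).
-/

set_option autoImplicit false

namespace Pool.Agent.Helper80.CS

theorem hadamard {m : ℕ} (A : Matrix (Fin m) (Fin m) ℝ) :
    |A.det| ≤ ∏ j, √(∑ i, A i j ^ 2) := by
  have : Fact (Module.finrank ℝ (EuclideanSpace ℝ (Fin m)) = m) := ⟨by simp⟩
  set b := EuclideanSpace.basisFun (Fin m) ℝ with hb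
  set o := b.toBasis.orientation with ho
  let w : Fin m → EuclideanSpace ℝ (Fin m) := fun j => WithLp.toLp 2 (fun i => A i j)
  have h1 := o.abs_volumeForm_apply_le w
  rw [o.volumeForm_robust' b] at h1
  have h2 : b.toBasis.det w = A.det := by
    rw [Module.Basis.det_apply]
    congr 1
  have h3 : ∀ j, ‖w j‖ = √(∑ i, A i j ^ 2) := by
    intro j
    rw [EuclideanSpace.norm_eq]
    simp [w]
  rw [h2] at h1
  simpa only [h3] using h1

theorem had {n : ℕ} (v : Fin (n + 1) → Fin n → ℝ) (hv0 : ∀ i j, 0 ≤ v i j) (hv1 : ∀ i j, v i j ≤ 1)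
    (μ : Fin (n + 1) → ℝ) (hμ : ∀ i, 0 ≤ μ i) (hs : ∑ i, μ i = 1) :
    |(MM v).det| * √(∏ i, μ i) ≤ ∏ j, √(XX μ v j * (1 - XX μ v j)) := by
  -- the matrix after the column operations
  set c : Fin (n + 1) → ℝ := Fin.cons 0 (XX μ v) with hc
  set B : Matrix (Fin (n + 1)) (Fin (n + 1)) ℝ := Matrix.of fun i j => MM v i j - c j with hB
  have hdB : (MM v).det = B.det := by
    rw [← Matrix.det_transpose (MM v), ← Matrix.det_transpose B]
    refine Matrix.det_eq_of_forall_row_eq_smul_add_const c 0 (by simp [hc]) fun i j => ?_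
    simp [hB, hc, MM]
  set A : Matrix (Fin (n + 1)) (Fin (n + 1)) ℝ := Matrix.of fun i j => √(μ i) * B i j with hA
  have hdA : A.det = (∏ i, √(μ i)) * B.det := Matrix.det_mul_column _ _
  have h1 := hadamard A
  rw [hdA, ← hdB, abs_mul, abs_of_nonneg (Finset.prod_nonneg fun i _ => Real.sqrt_nonneg _),
    ← Real.sqrt_prod _ (fun i _ => hμ i), mul_comm] at h1
  refine h1.trans ?_
  rw [Fin.prod_univ_succ]
  have e0 : √(∑ i, A i 0 ^ 2) = 1 := by
    have : ∑ i, A i 0 ^ 2 = 1 := by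
      rw [← hs]
      refine Finset.sum_congr rfl fun i _ => ?_
      simp [hA, hB, hc, MM, Real.sq_sqrt (hμ i)]
    rw [this, Real.sqrt_one]
  rw [e0, one_mul]
  refine Finset.prod_le_prod (fun j _ => Real.sqrt_nonneg _) fun j _ => Real.sqrt_le_sqrt ?_
  have e1 : ∀ i, A i j.succ ^ 2 = μ i * v i j ^ 2 - 2 * XX μ v j * (μ i * v i j) +
      XX μ v j ^ 2 * μ i := by
    intro i
    simp only [hA, hB, hc, MM, Matrix.of_apply, Fin.cons_succ, mul_pow, Real.sq_sqrt (hμ i)]
    ring
  rw [Finset.sum_congr rfl fun i _ => e1 i, Finset.sum_add_distrib, Finset.sum_sub_distrib,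
    ← Finset.mul_sum, ← Finset.mul_sum, hs]
  have e2 : ∑ i, μ i * v i j = XX μ v j := rfl
  have e3 : ∑ i, μ i * v i j ^ 2 ≤ XX μ v j := by
    rw [← e2]
    refine Finset.sum_le_sum fun i _ => mul_le_mul_of_nonneg_left ?_ (hμ i)
    nlinarith [hv0 i j, hv1 i j]
  rw [e2]
  nlinarith

end Pool.Agent.Helper80.CS
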