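import Pool.Agent.Helper80.CS.Defs

/-!
# CS-PAR: determinants, parametrization of a simplex

`det_MM`: subtract the row `0` from the other rows (`Matrix.det_eq_of_forall_row_eq_smul_add_const`),
expand along the column `0` (`Matrix.det_succ_column_zero`).
`det_MM_perm`: `Matrix.det_permute'`/`Matrix.det_permute`.
`det_MM_ne`: the vectors `v i.succ - v 0` are linearly independent (`affineIndependent_iff_linearIndependent_vsub`),
so the matrix in `det_MM` is invertible.
`par`: `L = ph v ⁻¹' S`. `ph v l = v 0 + Aᵀ l` with `A` the matrix of `det_MM`; the volume of the preimage: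
`MeasureTheory.Measure.addHaar_preimage_linearMap` (with `Matrix.toLin'` of `Aᵀ`) and translation
invariance. If `l ∈ L`, then `ph v l` is in the convex hull, so it is `∑ w i • v i` with `w ≥ 0`, `∑ w = 1`
(`convexHull_range_eq_exists_affineCombination` or `mem_convexHull_iff..`/`convexHull_eq`), i.e.
`ph v (fun i => w i.succ)`, and `ph v` is injective.
-/

set_option autoImplicit false

namespace Pool.Agent.Helper80.CS

open MeasureTheory

theorem det_MM {n : ℕ} (v : Fin (n + 1) → Fin n → ℝ) :
    (MM v).det = (Matrix.of fun i j : Fin n => v i.succ j - v 0 j).det := by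
  let B : Matrix (Fin (n + 1)) (Fin (n + 1)) ℝ :=
    Matrix.of fun i j => Fin.cases ((Fin.cons (1 : ℝ) (v 0) : Fin (n + 1) → ℝ) j)
      (fun i' => (Fin.cons (0 : ℝ) (fun j' => v i'.succ j' - v 0 j') : Fin (n + 1) → ℝ) j) i
  have h1 : (MM v).det = B.det := by
    refine Matrix.det_eq_of_forall_row_eq_smul_add_const (fun i => Fin.cases 0 (fun _ => 1) i) 0 rfl ?_
    intro i j
    refine Fin.cases ?_ (fun i' => ?_) i
    · simp [MM, B]
    · refine Fin.cases ?_ (fun j' => ?_) j
      · simp [MM, B]
      · simp [MM, B]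
  rw [h1, Matrix.det_succ_column_zero, Fin.sum_univ_succ]
  have h2 : ∀ i : Fin n, B i.succ 0 = 0 := fun i => by simp [B]
  have h3 : B 0 0 = 1 := by simp [B]
  rw [Finset.sum_eq_zero (fun i _ => by rw [h2 i]; ring)]
  have h4 : B.submatrix (Fin.succAbove 0) Fin.succ = Matrix.of fun i j : Fin n => v i.succ j - v 0 j := by
    ext i j
    simp [B]
  rw [h3, h4]
  simp

theorem det_MM_perm {n : ℕ} (v : Fin (n + 1) → Fin n → ℝ) (e : Equiv.Perm (Fin (n + 1))) :
    |(MM (fun i => v (e i))).det| = |(MM v).det| := by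
  have h1 : MM (fun i => v (e i)) = (MM v).submatrix e id := rfl
  rw [h1, Matrix.det_permute, abs_mul]
  have h2 : |((Equiv.Perm.sign e : ℤ) : ℝ)| = 1 := by
    rcases Int.units_eq_one_or (Equiv.Perm.sign e) with h | h <;> simp [h]
  rw [h2, one_mul]

theorem det_MM_ne {n : ℕ} (v : Fin (n + 1) → Fin n → ℝ) (hv : AffineIndependent ℝ v) :
    (MM v).det ≠ 0 := by
  rw [det_MM]
  have h1 := (affineIndependent_iff_linearIndependent_vsub ℝ v 0).1 hv
  have h2 : LinearIndependent ℝ (fun i : Fin n => v i.succ - v 0) :=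
    h1.comp (fun i : Fin n => (⟨i.succ, Fin.succ_ne_zero i⟩ : {x : Fin (n + 1) // x ≠ 0})) (by
      intro i j h
      exact Fin.succ_injective _ (congrArg Subtype.val h))
  have h3 : IsUnit (Matrix.of fun i j : Fin n => v i.succ j - v 0 j) :=
    Matrix.linearIndependent_rows_iff_isUnit.1 h2
  exact ((Matrix.isUnit_iff_isUnit_det _).1 h3).ne_zero

private lemma h74_hull {n : ℕ} (v : Fin (n + 1) → Fin n → ℝ) :
    convexHull ℝ (Set.range v) ⊆ {x | ∃ l : Fin n → ℝ, (∀ i, 0 ≤ l i) ∧ ∑ i, l i ≤ 1 ∧ ph v l = x} := by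
  refine convexHull_min ?_ ?_
  · rintro x ⟨i, rfl⟩
    refine Fin.cases ?_ (fun i' => ?_) i
    · refine ⟨0, fun _ => le_rfl, by simp, ?_⟩
      funext j
      simp [ph]
    · refine ⟨Pi.single i' 1, fun k => ?_, by simp, ?_⟩
      · by_cases h : k = i'
        · subst h
          simp
        · rw [Pi.single_eq_of_ne h]
      · funext j
        unfold ph
        rw [Finset.sum_eq_single i']
        · rw [Pi.single_eq_same]
          ring
        · intro k _ hk
          rw [Pi.single_eq_of_ne hk, zero_mul]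
        · intro h
          exact absurd (Finset.mem_univ _) h
  · rintro x ⟨l, h1, h2, rfl⟩ y ⟨l', h1', h2', rfl⟩ a b ha hb hab
    refine ⟨fun i => a * l i + b * l' i, fun i => ?_, ?_, ?_⟩
    · have := h1 i
      have := h1' i
      positivity
    · rw [Finset.sum_add_distrib, ← Finset.mul_sum, ← Finset.mul_sum]
      nlinarith
    · funext j
      simp only [ph, Pi.add_apply, Pi.smul_apply, smul_eq_mul]
      have h3 : ∑ i, (a * l i + b * l' i) * (v i.succ j - v 0 j) =
          a * ∑ i, l i * (v i.succ j - v 0 j) + b * ∑ i, l' i * (v i.succ j - v 0 j) := by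
        rw [Finset.mul_sum, Finset.mul_sum, ← Finset.sum_add_distrib]
        exact Finset.sum_congr rfl fun i _ => by ring
      rw [h3]
      linear_combination (-(v 0 j)) * hab

theorem par {n : ℕ} (v : Fin (n + 1) → Fin n → ℝ) (hv : AffineIndependent ℝ v)
    (S : Set (Fin n → ℝ)) (hS : MeasurableSet S) (hsub : S ⊆ convexHull ℝ (Set.range v)) :
    ∃ L : Set (Fin n → ℝ), MeasurableSet L ∧ (∀ l ∈ L, ph v l ∈ S) ∧ (∀ l ∈ L, ∀ i, 0 ≤ l i) ∧
      (∀ l ∈ L, ∑ i, l i ≤ 1) ∧ (volume S).toReal = |(MM v).det| * (volume L).toReal := by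
  set A : Matrix (Fin n) (Fin n) ℝ := Matrix.of fun i j : Fin n => v i.succ j - v 0 j with hA
  have hdet : A.det ≠ 0 := by
    rw [hA, ← det_MM]
    exact det_MM_ne v hv
  have hph : ∀ l, ph v l = v 0 + A.transpose.toLin' l := by
    intro l
    funext j
    rw [Matrix.toLin'_apply, Pi.add_apply]
    unfold ph
    congr 1
    simp only [Matrix.mulVec, dotProduct, Matrix.transpose_apply, hA, Matrix.of_apply]
    exact Finset.sum_congr rfl fun i _ => mul_comm _ _
  have hdetf : LinearMap.det A.transpose.toLin' ≠ 0 := by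
    rw [LinearMap.det_toLin', Matrix.det_transpose]
    exact hdet
  have hinj : Function.Injective (ph v) := by
    intro l l' h
    rw [hph, hph] at h
    have h1 := add_left_cancel h
    have h2 : Function.Injective A.transpose.toLin' := by
      have h3 := (A.transpose.toLin'.equivOfDetNeZero hdetf).injective
      exact h3
    exact h2 h1
  have hcont : Continuous (ph v) := by
    have : ph v = fun l => v 0 + A.transpose.toLin' l := funext hph
    rw [this]
    exact continuous_const.add (LinearMap.continuous_of_finiteDimensional _)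
  have hgood : ∀ l, ph v l ∈ S → (∀ i, 0 ≤ l i) ∧ ∑ i, l i ≤ 1 := by
    intro l hl
    obtain ⟨l', h1, h2, h3⟩ := h74_hull v (hsub hl)
    have := hinj h3
    subst this
    exact ⟨h1, h2⟩
  refine ⟨ph v ⁻¹' S, hcont.measurable hS, fun l hl => hl, fun l hl => (hgood l hl).1,
    fun l hl => (hgood l hl).2, ?_⟩
  have h1 : ph v ⁻¹' S = A.transpose.toLin' ⁻¹' ((fun x => v 0 + x) ⁻¹' S) := by
    ext l
    rw [Set.mem_preimage, Set.mem_preimage, Set.mem_preimage, hph]
  rw [h1, Measure.addHaar_preimage_linearMap volume hdetf, measure_preimage_add, ENNReal.toReal_mul,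
    ENNReal.toReal_ofReal (abs_nonneg _), LinearMap.det_toLin', Matrix.det_transpose, det_MM, ← hA, ← mul_assoc,
    ← abs_mul, mul_inv_cancel₀ hdet, abs_one, one_mul]

end Pool.Agent.Helper80.CS
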