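import Pool.Agent.Helper80.CS.Exp
import Pool.Agent.Helper80.CS.Had
import Pool.Agent.Helper80.CS.Par

/-!
# CS-CELL: the volume of a convex piece of a simplex in the cube
-/

set_option autoImplicit false

namespace Pool.Agent.Helper80.CS

open MeasureTheory

/-- exchange of the coordinate `i` with `1 - ∑ l`, linear part -/
private noncomputable def psiL {n : ℕ} (i : Fin n) : (Fin n → ℝ) →ₗ[ℝ] (Fin n → ℝ) where
  toFun l := Function.update l i (-∑ k, l k)
  map_add' a b := by
    funext k
    by_cases hk : k = i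
    · subst hk
      simp [Finset.sum_add_distrib]
      ring
    · simp [Function.update_of_ne hk]
  map_smul' r a := by
    funext k
    by_cases hk : k = i
    · subst hk
      simp [Finset.mul_sum]
    · simp [Function.update_of_ne hk]

private lemma psiL_apply {n : ℕ} (i : Fin n) (l : Fin n → ℝ) :
    psiL i l = Function.update l i (-∑ k, l k) := rfl

private lemma sum_upd {n : ℕ} (i : Fin n) (l : Fin n → ℝ) (b : ℝ) :
    ∑ k, Function.update l i b k = b - l i + ∑ k, l k := by
  rw [Finset.sum_update_of_mem (Finset.mem_univ i),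
    Finset.sum_eq_add_sum_sdiff_singleton_of_mem (Finset.mem_univ i) l]
  ring

private lemma psiL_psiL {n : ℕ} (i : Fin n) : (psiL i).comp (psiL i) = LinearMap.id := by
  refine LinearMap.ext fun l => funext fun k => ?_
  simp only [LinearMap.comp_apply, LinearMap.id_apply, psiL_apply]
  rw [sum_upd]
  by_cases hk : k = i
  · subst hk
    simp
  · simp [Function.update_of_ne hk]

private lemma psiL_det {n : ℕ} (i : Fin n) : |LinearMap.det (psiL i)| = 1 := by
  have h := congrArg LinearMap.det (psiL_psiL i)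
  rw [LinearMap.det_comp, LinearMap.det_id] at h
  have h2 : |LinearMap.det (psiL i)| * |LinearMap.det (psiL i)| = 1 := by
    rw [← abs_mul, h, abs_one]
  nlinarith [abs_nonneg (LinearMap.det (psiL i))]

/-- exchange of the coordinate `i` with `1 - ∑ l` -/
private noncomputable def psi {n : ℕ} (i : Fin n) (l : Fin n → ℝ) : Fin n → ℝ :=
  Function.update l i (1 - ∑ k, l k)

private lemma psi_eq {n : ℕ} (i : Fin n) (l : Fin n → ℝ) : psi i l = psiL i l + Pi.single i 1 := by
  funext k
  unfold psi
  rw [psiL_apply]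
  by_cases hk : k = i
  · subst hk
    simp
    ring
  · simp [hk]

private lemma psi_psi {n : ℕ} (i : Fin n) (l : Fin n → ℝ) : psi i (psi i l) = l := by
  funext k
  unfold psi
  rw [sum_upd]
  by_cases hk : k = i
  · subst hk
    simp only [Function.update_self]
    ring
  · simp [Function.update_of_ne hk]

private lemma psi_mp {n : ℕ} (i : Fin n) : MeasurePreserving (psi i) volume volume := by
  have h1 : MeasurePreserving (psiL i : (Fin n → ℝ) → Fin n → ℝ) volume volume := by
    refine ⟨(psiL i).continuous_of_finiteDimensional.measurable, ?_⟩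
    have hne : LinearMap.det (psiL i) ≠ 0 := by
      intro h0
      have := psiL_det i
      rw [h0] at this
      simp at this
    rw [Real.map_linearMap_volume_pi_eq_smul_volume_pi hne, abs_inv, psiL_det]
    simp
  have h2 : MeasurePreserving (fun x : Fin n → ℝ => x + Pi.single i 1) volume volume :=
    measurePreserving_add_right volume _
  have h3 := h2.comp h1
  convert h3 using 1
  funext l
  rw [psi_eq]
  rfl

private lemma psi_emb {n : ℕ} (i : Fin n) : MeasurableEmbedding (psi i) :=
  (MeasurableEquiv.ofInvolutive (psi i) (psi_psi i) (psi_mp i).measurable).measurableEmbedding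

private lemma fin_vol {n : ℕ} {L : Set (Fin n → ℝ)} (h0 : ∀ l ∈ L, ∀ i, 0 ≤ l i)
    (h1 : ∀ l ∈ L, ∀ i, l i ≤ 1) : volume L ≠ ⊤ := by
  have hsub : L ⊆ Set.Icc (0 : Fin n → ℝ) 1 := fun l hl => ⟨fun i => h0 l hl i, fun i => h1 l hl i⟩
  exact ne_top_of_le_ne_top (isCompact_Icc.measure_ne_top) (measure_mono hsub)

private lemma int_coord {n : ℕ} {L : Set (Fin n → ℝ)} (hL : MeasurableSet L)
    (h0 : ∀ l ∈ L, ∀ i, 0 ≤ l i) (h1 : ∀ l ∈ L, ∀ i, l i ≤ 1) (k : Fin n) :
    IntegrableOn (fun l : Fin n → ℝ => l k) L := by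
  refine Measure.integrableOn_of_bounded (fin_vol h0 h1)
    (measurable_pi_apply k).aestronglyMeasurable (M := 1) ?_
  rw [ae_restrict_iff' hL]
  refine Filter.Eventually.of_forall fun l hl => ?_
  rw [Real.norm_eq_abs, abs_of_nonneg (h0 l hl k)]
  exact h1 l hl k

private lemma mean_pos {n : ℕ} {L : Set (Fin n → ℝ)} (hL : MeasurableSet L)
    (h0 : ∀ l ∈ L, ∀ i, 0 ≤ l i) (h1 : ∀ l ∈ L, ∀ i, l i ≤ 1) (hV : volume L ≠ 0) (k : Fin n) :
    0 < ∫ l in L, l k := by
  rw [setIntegral_pos_iff_support_of_nonneg_ae ?_ (int_coord hL h0 h1 k)]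
  · have h2 : volume {l : Fin n → ℝ | l k = 0} = 0 := by
      rw [volume_pi]
      exact Measure.pi_hyperplane _ k 0
    have h3 : L ⊆ (Function.support (fun l : Fin n → ℝ => l k) ∩ L) ∪ {l : Fin n → ℝ | l k = 0} := by
      intro l hl
      by_cases h : l k = 0
      · exact Or.inr h
      · exact Or.inl ⟨h, hl⟩
    refine pos_iff_ne_zero.2 fun h4 => hV ?_
    exact measure_mono_null h3 (measure_union_null h4 h2)
  · rw [Filter.EventuallyLE, ae_restrict_iff' hL]
    exact Filter.Eventually.of_forall fun l hl => h0 l hl k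

private lemma vol_base {n : ℕ} {L : Set (Fin n → ℝ)} (hL : MeasurableSet L)
    (h0 : ∀ l ∈ L, ∀ i, 0 ≤ l i) (h1 : ∀ l ∈ L, ∀ i, l i ≤ 1) (hV : volume L ≠ 0) :
    (volume L).toReal ≤ Real.exp n * ∏ k, (∫ l in L, l k) / (volume L).toReal := by
  have hpos : 0 < (volume L).toReal := ENNReal.toReal_pos hV (fin_vol h0 h1)
  refine vol_exp L hL h0 h1 _ (fun i => div_pos (mean_pos hL h0 h1 hV i) hpos) fun i => ?_
  rw [div_mul_cancel₀ _ hpos.ne']

private lemma le_one_of_sum {n : ℕ} {L : Set (Fin n → ℝ)} (h0 : ∀ l ∈ L, ∀ i, 0 ≤ l i)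
    (hs : ∀ l ∈ L, ∑ i, l i ≤ 1) : ∀ l ∈ L, ∀ i, l i ≤ 1 := fun l hl i =>
  (Finset.single_le_sum (fun k _ => h0 l hl k) (Finset.mem_univ i)).trans (hs l hl)

/-- the means of the barycentric coordinates -/
private lemma vol_any {n : ℕ} {L : Set (Fin n → ℝ)} (hL : MeasurableSet L)
    (h0 : ∀ l ∈ L, ∀ i, 0 ≤ l i) (hs : ∀ l ∈ L, ∑ i, l i ≤ 1) (hV : volume L ≠ 0)
    (m : Fin n → ℝ) (hm : ∀ k, m k = (∫ l in L, l k) / (volume L).toReal) :
    (∀ k, 0 < m k) ∧ 0 ≤ 1 - ∑ k, m k ∧
      (volume L).toReal ≤ Real.exp n * ((n + 1) * ((1 - ∑ k, m k) * ∏ k, m k)) := by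
  have h1 := le_one_of_sum h0 hs
  have hpos : 0 < (volume L).toReal := ENNReal.toReal_pos hV (fin_vol h0 h1)
  have hmpos : ∀ k, 0 < m k := fun k => by
    rw [hm]
    exact div_pos (mean_pos hL h0 h1 hV k) hpos
  -- the integral of `1 - ∑ l`
  have hint : ∫ l in L, (1 - ∑ k, l k) = (1 - ∑ k, m k) * (volume L).toReal := by
    rw [integral_sub, integral_finsetSum]
    · rw [setIntegral_const, smul_eq_mul, mul_one, sub_mul, one_mul, Finset.sum_mul]
      congr 1
      refine Finset.sum_congr rfl fun k _ => ?_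
      rw [hm, div_mul_cancel₀ _ hpos.ne']
    · exact fun k _ => int_coord hL h0 h1 k
    · exact integrableOn_const (fin_vol h0 h1)
    · exact integrable_finsetSum _ fun k _ => int_coord hL h0 h1 k
  have hm0 : 0 ≤ 1 - ∑ k, m k := by
    have h2 : 0 ≤ ∫ l in L, (1 - ∑ k, l k) :=
      setIntegral_nonneg hL fun l hl => sub_nonneg.2 (hs l hl)
    rw [hint] at h2
    exact nonneg_of_mul_nonneg_left h2 hpos
  refine ⟨hmpos, hm0, ?_⟩
  have hP : 0 < ∏ k, m k := Finset.prod_pos fun k _ => hmpos k
  by_cases hcase : 1 ≤ ((n : ℝ) + 1) * (1 - ∑ k, m k)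
  · have h2 := vol_base hL h0 h1 hV
    simp only [← hm] at h2
    refine h2.trans ?_
    refine mul_le_mul_of_nonneg_left ?_ (Real.exp_pos _).le
    nlinarith
  · -- there is `i` with `1 ≤ (n+1) m i`
    push Not at hcase
    have hex : ∃ i, 1 ≤ ((n : ℝ) + 1) * m i := by
      by_contra hno
      push Not at hno
      have h3 : ∑ i, ((n : ℝ) + 1) * m i ≤ ∑ _i : Fin n, (1 : ℝ) :=
        Finset.sum_le_sum fun i _ => (hno i).le
      rw [← Finset.mul_sum, Finset.sum_const, Finset.card_univ, Fintype.card_fin, nsmul_eq_mul,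
        mul_one] at h3
      nlinarith
    obtain ⟨i, hi⟩ := hex
    set L' := psi i ⁻¹' L with hL'
    have hL'm : MeasurableSet L' := (psi_mp i).measurable hL
    have hvol : volume L' = volume L := (psi_mp i).measure_preimage hL.nullMeasurableSet
    have h0' : ∀ l ∈ L', ∀ k, 0 ≤ l k := by
      intro l hl k
      by_cases hk : k = i
      · subst hk
        have h3 : l k = 1 - ∑ j, psi k l j := by
          have h4 := congrFun (psi_psi k l) k
          rw [← h4]
          simp [psi]
        rw [h3]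
        exact sub_nonneg.2 (hs _ hl)
      · have h3 := h0 _ hl k
        unfold psi at h3
        rwa [Function.update_of_ne hk] at h3
    have h1' : ∀ l ∈ L', ∀ k, l k ≤ 1 := by
      intro l hl k
      by_cases hk : k = i
      · subst hk
        have h3 : l k = 1 - ∑ j, psi k l j := by
          have h4 := congrFun (psi_psi k l) k
          rw [← h4]
          simp [psi]
        rw [h3]
        have : 0 ≤ ∑ j, psi k l j := Finset.sum_nonneg fun j _ => h0 _ hl j
        linarith
      · have h3 := h1 _ hl k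
        unfold psi at h3
        rwa [Function.update_of_ne hk] at h3
    have hV' : volume L' ≠ 0 := by rwa [hvol]
    have h2 := vol_base hL'm h0' h1' hV'
    have hmean : ∀ k, (∫ l in L', l k) / (volume L').toReal =
        Function.update m i (1 - ∑ k, m k) k := by
      intro k
      have h3 : ∫ l in L', l k = ∫ y in L, psi i y k := by
        rw [hL', ← (psi_mp i).setIntegral_preimage_emb (psi_emb i) (fun y => psi i y k) L]
        simp only [psi_psi]
      rw [h3, hvol]
      by_cases hk : k = i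
      · subst hk
        have h4 : ∀ y : Fin n → ℝ, psi k y k = 1 - ∑ j, y j := fun y => by simp [psi]
        simp only [h4]
        rw [hint, Function.update_self, mul_div_cancel_right₀ _ hpos.ne']
      · have h4 : ∀ y : Fin n → ℝ, psi i y k = y k := fun y => by
          unfold psi
          rw [Function.update_of_ne hk]
        simp only [h4]
        rw [Function.update_of_ne hk, hm]
    simp only [hmean] at h2
    rw [hvol, Finset.prod_update_of_mem (Finset.mem_univ i)] at h2
    refine h2.trans ?_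
    refine mul_le_mul_of_nonneg_left ?_ (Real.exp_pos _).le
    rw [Finset.prod_eq_mul_prod_sdiff_singleton_of_mem (Finset.mem_univ i) m]
    have hQ : 0 < ∏ x ∈ Finset.univ \ {i}, m x := Finset.prod_pos fun k _ => hmpos k
    have h5 : 0 ≤ (1 - ∑ k, m k) * ∏ x ∈ Finset.univ \ {i}, m x := mul_nonneg hm0 hQ.le
    nlinarith

/-- AM-GM -/
private lemma amgm {n : ℕ} (a : Fin (n + 1) → ℝ) (h0 : ∀ i, 0 ≤ a i) (hs : ∑ i, a i = 1) :
    (∏ i, a i) * ((n : ℝ) + 1) ^ (n + 1) ≤ 1 := by
  have h1 : (∏ i, a i) * ((n : ℝ) + 1) ^ (n + 1) = ∏ i, (((n : ℝ) + 1) * a i) := by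
    rw [Finset.prod_mul_distrib, Finset.prod_const, Finset.card_univ, Fintype.card_fin]
    ring
  rw [h1]
  have h2 : ∏ i, (((n : ℝ) + 1) * a i) ≤ ∏ i, Real.exp (((n : ℝ) + 1) * a i - 1) := by
    refine Finset.prod_le_prod (fun i _ => mul_nonneg (by positivity) (h0 i)) fun i _ => ?_
    have := Real.add_one_le_exp (((n : ℝ) + 1) * a i - 1)
    linarith
  refine h2.trans ?_
  rw [← Real.exp_sum, Finset.sum_sub_distrib, ← Finset.mul_sum, hs]
  simp

theorem cell {n : ℕ} (v : Fin (n + 1) → Fin n → ℝ) (hv : AffineIndependent ℝ v)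
    (hv0 : ∀ i j, 0 ≤ v i j) (hv1 : ∀ i j, v i j ≤ 1) (S : Set (Fin n → ℝ)) (hc : Convex ℝ S)
    (hcl : IsClosed S) (hsub : S ⊆ convexHull ℝ (Set.range v)) (hpos : volume S ≠ 0) :
    ∃ X ∈ S, (volume S).toReal * √(((n : ℝ) + 1) ^ (n + 1)) ≤
      Real.exp n * (n + 1) * ∏ j, √(X j * (1 - X j)) := by
  obtain ⟨L, hL, hLS, h0, hs, hvol⟩ := par v hv S hcl.measurableSet hsub
  have h1 := le_one_of_sum h0 hs
  have hcube : S ⊆ Set.Icc (0 : Fin n → ℝ) 1 := by
    refine hsub.trans (convexHull_min ?_ (convex_Icc _ _))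
    rintro _ ⟨i, rfl⟩
    exact ⟨fun j => hv0 i j, fun j => hv1 i j⟩
  have hSfin : volume S ≠ ⊤ :=
    ne_top_of_le_ne_top (isCompact_Icc.measure_ne_top) (measure_mono hcube)
  have hSpos : 0 < (volume S).toReal := ENNReal.toReal_pos hpos hSfin
  have hV : volume L ≠ 0 := by
    intro h
    rw [hvol, h] at hSpos
    simp at hSpos
  have hLpos : 0 < (volume L).toReal := ENNReal.toReal_pos hV (fin_vol h0 h1)
  set m : Fin n → ℝ := fun k => (∫ l in L, l k) / (volume L).toReal with hm
  obtain ⟨hmpos, hm0, hbound⟩ := vol_any hL h0 hs hV m (fun k => rfl)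
  set a : Fin (n + 1) → ℝ := Fin.cons (1 - ∑ k, m k) m with ha
  have ha0 : ∀ i, 0 ≤ a i := by
    intro i
    refine Fin.cases ?_ (fun k => ?_) i
    · rw [ha, Fin.cons_zero]; exact hm0
    · rw [ha, Fin.cons_succ]; exact (hmpos k).le
  have hasum : ∑ i, a i = 1 := by
    rw [Fin.sum_univ_succ, ha, Fin.cons_zero]
    simp only [Fin.cons_succ]
    ring
  have haprod : ∏ i, a i = (1 - ∑ k, m k) * ∏ k, m k := by
    rw [Fin.prod_univ_succ, ha, Fin.cons_zero]
    simp only [Fin.cons_succ]
  -- the centroid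
  have hX : XX a v ∈ S := by
    have hcont : Continuous (ph v) := by
      unfold ph
      fun_prop
    have hint : IntegrableOn (ph v) L := by
      refine Measure.integrableOn_of_bounded (fin_vol h0 h1)
        hcont.aestronglyMeasurable (M := 1) ?_
      rw [ae_restrict_iff' hL]
      refine Filter.Eventually.of_forall fun l hl => ?_
      rw [pi_norm_le_iff_of_nonneg zero_le_one]
      intro j
      have := hcube (hLS l hl)
      rw [Real.norm_eq_abs, abs_of_nonneg (this.1 j)]
      exact this.2 j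
    have h2 := hc.set_average_mem hcl hV (fin_vol h0 h1)
      ((ae_restrict_iff' hL).2 (Filter.Eventually.of_forall hLS)) hint
    have h3 : (⨍ l in L, ph v l) = XX a v := by
      rw [setAverage_eq]
      funext j
      have hij : ∀ j, Integrable (fun l => ph v l j) (volume.restrict L) := fun j =>
        hint.eval j
      rw [Pi.smul_apply, eval_integral hij, smul_eq_mul]
      have h4 : ∫ l in L, ph v l j = (XX a v j) * (volume L).toReal := by
        unfold ph
        rw [integral_add, integral_finsetSum]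
        · rw [setIntegral_const, smul_eq_mul]
          have h5 : ∀ i, ∫ l in L, l i * (v i.succ j - v 0 j) =
              m i * (volume L).toReal * (v i.succ j - v 0 j) := by
            intro i
            rw [integral_mul_const, hm]
            simp only
            rw [div_mul_cancel₀ _ hLpos.ne']
          simp only [h5]
          unfold XX
          rw [Fin.sum_univ_succ, ha, Fin.cons_zero]
          simp only [Fin.cons_succ]
          have h6 : (volume.real L) = (volume L).toReal := rfl
          rw [h6, add_mul, Finset.sum_mul, sub_mul, Finset.sum_mul, sub_mul, Finset.sum_mul]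
          rw [sub_add_eq_add_sub, add_sub_assoc, ← Finset.sum_sub_distrib, one_mul, mul_comm (v 0 j)]
          congr 1
          refine Finset.sum_congr rfl fun i _ => ?_
          ring
        · exact fun i _ => (int_coord hL h0 h1 i).mul_const _
        · exact integrableOn_const (fin_vol h0 h1)
        · exact integrable_finsetSum _ fun i _ => (int_coord hL h0 h1 i).mul_const _
      rw [h4]
      have h6 : (volume.real L) = (volume L).toReal := rfl
      rw [h6]
      field_simp
    rwa [h3] at h2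
  refine ⟨XX a v, hX, ?_⟩
  have hH := had v hv0 hv1 a ha0 hasum
  have hA := amgm a ha0 hasum
  have hP0 : 0 ≤ ∏ i, a i := Finset.prod_nonneg fun i _ => ha0 i
  rw [← haprod] at hbound
  have hR0 : 0 ≤ ∏ j, √(XX a v j * (1 - XX a v j)) := Finset.prod_nonneg fun j _ => Real.sqrt_nonneg _
  have hq : (∏ i, a i) * √(((n : ℝ) + 1) ^ (n + 1)) ≤ √(∏ i, a i) := by
    have e1 : (∏ i, a i) = √(∏ i, a i) * √(∏ i, a i) := (Real.mul_self_sqrt hP0).symm
    have e2 : √(∏ i, a i) * √(((n : ℝ) + 1) ^ (n + 1)) ≤ 1 := by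
      rw [← Real.sqrt_mul hP0]
      exact Real.sqrt_le_one.2 hA
    calc (∏ i, a i) * √(((n : ℝ) + 1) ^ (n + 1))
        = √(∏ i, a i) * (√(∏ i, a i) * √(((n : ℝ) + 1) ^ (n + 1))) := by
          rw [← mul_assoc, ← e1]
      _ ≤ √(∏ i, a i) * 1 := mul_le_mul_of_nonneg_left e2 (Real.sqrt_nonneg _)
      _ = _ := mul_one _
  calc (volume S).toReal * √(((n : ℝ) + 1) ^ (n + 1))
      = |(MM v).det| * (volume L).toReal * √(((n : ℝ) + 1) ^ (n + 1)) := by rw [hvol]
    _ ≤ |(MM v).det| * (Real.exp n * ((n + 1) * ∏ i, a i)) * √(((n : ℝ) + 1) ^ (n + 1)) := by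
        gcongr
    _ = Real.exp n * (n + 1) * (|(MM v).det| * ((∏ i, a i) * √(((n : ℝ) + 1) ^ (n + 1)))) := by ring
    _ ≤ Real.exp n * (n + 1) * (|(MM v).det| * √(∏ i, a i)) := by gcongr
    _ ≤ _ := by gcongr

end Pool.Agent.Helper80.CS
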