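import Pool.Agent.Helper80.CS.Defs

/-!
# CS-INT: the integral of the weight over the box

`BB n δ = Set.pi univ (fun _ => Icc δ (1-δ))`; the integral over the box is the product of the
one-dimensional integrals (`integral_fintype_prod_volume_eq_prod` with
`g t = if t ∈ Icc δ (1-δ) then (√(t(1-t)))⁻¹ else 0`, or `volume_pi`/`Measure.restrict_pi_pi`), and
`∫ t in δ..1-δ, (√(t*(1-t)))⁻¹ = arcsin (1-2δ) - arcsin (2δ-1) = 2 arcsin (1-2δ)`
(`intervalIntegral.integral_eq_sub_of_hasDerivAt`, `arcsin (2t-1)` has the derivative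
`2 / √(1-(2t-1)^2) = 1/√(t(1-t))`).
-/

set_option autoImplicit false

namespace Pool.Agent.Helper80.CS

open MeasureTheory

private lemma pos50 {δ t : ℝ} (h0 : 0 < δ) (ht : t ∈ Set.Icc δ (1 - δ)) : 0 < t * (1 - t) :=
  mul_pos (h0.trans_le ht.1) (by linarith [ht.2])

theorem integrable_hh (n : ℕ) (δ : ℝ) (h0 : 0 < δ) : IntegrableOn (hh (n := n)) (BB n δ) := by
  refine ContinuousOn.integrableOn_compact isCompact_Icc ?_
  unfold hh
  refine continuousOn_finsetProd _ fun j _ => ?_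
  refine ContinuousOn.inv₀ (by fun_prop) fun x hx => ?_
  exact (Real.sqrt_pos.2 (pos50 h0 ⟨hx.1 j, hx.2 j⟩)).ne'

private lemma one50 (δ : ℝ) (h0 : 0 < δ) (h1 : δ < 1 / 2) :
    ∫ t in Set.Icc δ (1 - δ), (√(t * (1 - t)))⁻¹ = 2 * Real.arcsin (1 - 2 * δ) := by
  rw [integral_Icc_eq_integral_Ioc, ← intervalIntegral.integral_of_le (by linarith)]
  have hu : Set.uIcc δ (1 - δ) = Set.Icc δ (1 - δ) := Set.uIcc_of_le (by linarith)
  have hd : ∀ t ∈ Set.uIcc δ (1 - δ),
      HasDerivAt (fun t => Real.arcsin (2 * t - 1)) ((√(t * (1 - t)))⁻¹) t := by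
    intro t ht
    rw [hu] at ht
    have hp := pos50 h0 ht
    have h2 : HasDerivAt (fun t : ℝ => 2 * t - 1) 2 t := by
      simpa using ((hasDerivAt_id t).const_mul 2).sub_const 1
    have h3 := (Real.hasDerivAt_arcsin (x := 2 * t - 1) (by linarith [ht.1])
      (by linarith [ht.2])).comp t h2
    have h4 : √(1 - (2 * t - 1) ^ 2) = 2 * √(t * (1 - t)) := by
      rw [show 1 - (2 * t - 1) ^ 2 = 2 ^ 2 * (t * (1 - t)) by ring,
        Real.sqrt_mul (by norm_num), Real.sqrt_sq (by norm_num)]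
    have h5 : 1 / √(1 - (2 * t - 1) ^ 2) * 2 = (√(t * (1 - t)))⁻¹ := by
      rw [h4]
      have := (Real.sqrt_pos.2 hp).ne'
      field_simp
    rw [h5] at h3
    exact h3
  have hc : ContinuousOn (fun t : ℝ => (√(t * (1 - t)))⁻¹) (Set.uIcc δ (1 - δ)) := by
    refine ContinuousOn.inv₀ (by fun_prop) fun x hx => ?_
    rw [hu] at hx
    exact (Real.sqrt_pos.2 (pos50 h0 hx)).ne'
  rw [intervalIntegral.integral_eq_sub_of_hasDerivAt hd hc.intervalIntegrable,
    show 2 * (1 - δ) - 1 = 1 - 2 * δ by ring, show 2 * δ - 1 = -(1 - 2 * δ) by ring,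
    Real.arcsin_neg]
  ring

theorem int_hh (n : ℕ) (δ : ℝ) (h0 : 0 < δ) (h1 : δ < 1 / 2) :
    ∫ x in BB n δ, hh x = (2 * Real.arcsin (1 - 2 * δ)) ^ n := by
  have h2 : BB n δ = Set.pi Set.univ (fun _ : Fin n => Set.Icc δ (1 - δ)) := by
    rw [Set.pi_univ_Icc]
    rfl
  rw [h2, volume_pi, Measure.restrict_pi_pi]
  unfold hh
  rw [integral_fintype_prod_eq_prod (fun _ t => (√(t * (1 - t)))⁻¹)]
  simp only [one50 δ h0 h1, Finset.prod_const, Finset.card_univ, Fintype.card_fin]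

end Pool.Agent.Helper80.CS
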