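import Pool.Agent.Helper80.CS.Defs

/-!
# CS-LIP: the weight does not change much in a small ball

`hh_le`: for `s, t ∈ [δ, 1-δ]`: `(√(s(1-s)))⁻¹ ≤ (√(t(1-t)))⁻¹ * exp (|s-t|/(2δ))`, since
`t(1-t) ≤ s(1-s) * exp (|s-t|/δ)`: `t/s ≤ 1 + |s-t|/s`, `(1-t)/(1-s) ≤ 1 + ..`; one of the two factors
is `≤ 1` and the other one is `≤ 1 + |s-t|/δ ≤ exp (|s-t|/δ)`. Then take the product over `j`.
`l1_le`: Cauchy-Schwarz, `∑ |x j - y j| ≤ √n * √(∑ (x j - y j)^2) ≤ n/√K`.
-/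

set_option autoImplicit false

namespace Pool.Agent.Helper80.CS

private lemma h35_one {δ s t : ℝ} (h0 : 0 < δ) (hs : δ ≤ s) (hs' : s ≤ 1 - δ) (ht : δ ≤ t)
    (ht' : t ≤ 1 - δ) : t * (1 - t) ≤ s * (1 - s) * Real.exp (|s - t| / δ) := by
  have hs0 : 0 < s := by linarith
  have hs1 : 0 < 1 - s := by linarith
  have ht0 : 0 < t := by linarith
  have ht1 : 0 < 1 - t := by linarith
  have hexp := Real.add_one_le_exp (|s - t| / δ)
  have key : ∀ a b : ℝ, δ ≤ a → a ≤ b → b ≤ a * (1 + (b - a) / δ) := by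
    intro a b ha hab
    have h1 : (b - a) ≤ a * ((b - a) / δ) := by
      rw [← mul_div_assoc, le_div_iff₀ h0]
      nlinarith
    linarith
  rcases le_total s t with h | h
  · have e1 : |s - t| = t - s := by rw [abs_sub_comm]; exact abs_of_nonneg (by linarith)
    rw [e1] at hexp ⊢
    have h1 := key s t hs h
    have h2 : t ≤ s * Real.exp ((t - s) / δ) := by
      refine h1.trans (mul_le_mul_of_nonneg_left ?_ hs0.le)
      linarith
    calc t * (1 - t) ≤ (s * Real.exp ((t - s) / δ)) * (1 - s) :=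
          mul_le_mul h2 (by linarith) ht1.le (by positivity)
      _ = s * (1 - s) * Real.exp ((t - s) / δ) := by ring
  · have e1 : |s - t| = s - t := abs_of_nonneg (by linarith)
    rw [e1] at hexp ⊢
    have h1 := key (1 - s) (1 - t) (by linarith) (by linarith)
    have h2 : 1 - t ≤ (1 - s) * Real.exp ((s - t) / δ) := by
      refine h1.trans (mul_le_mul_of_nonneg_left ?_ hs1.le)
      have e2 : (1 - t) - (1 - s) = s - t := by ring
      rw [e2]
      linarith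
    calc t * (1 - t) ≤ s * ((1 - s) * Real.exp ((s - t) / δ)) :=
          mul_le_mul h h2 ht1.le hs0.le
      _ = s * (1 - s) * Real.exp ((s - t) / δ) := by ring

private lemma h35_coord {δ s t : ℝ} (h0 : 0 < δ) (hs : δ ≤ s) (hs' : s ≤ 1 - δ) (ht : δ ≤ t)
    (ht' : t ≤ 1 - δ) :
    (√(s * (1 - s)))⁻¹ ≤ (√(t * (1 - t)))⁻¹ * Real.exp (|s - t| / (2 * δ)) := by
  have hs0 : 0 < s * (1 - s) := mul_pos (by linarith) (by linarith)
  have ht0 : 0 < t * (1 - t) := mul_pos (by linarith) (by linarith)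
  have h1 : √(t * (1 - t)) ≤ √(s * (1 - s)) * Real.exp (|s - t| / (2 * δ)) := by
    rw [Real.sqrt_le_left (by positivity), mul_pow, Real.sq_sqrt hs0.le, ← Real.exp_nat_mul]
    have e1 : ((2 : ℕ) : ℝ) * (|s - t| / (2 * δ)) = |s - t| / δ := by
      push_cast
      field_simp
    rw [e1]
    exact h35_one h0 hs hs' ht ht'
  have hs1 : 0 < √(s * (1 - s)) := Real.sqrt_pos.2 hs0
  have ht1 : 0 < √(t * (1 - t)) := Real.sqrt_pos.2 ht0
  rw [inv_mul_eq_div, le_div_iff₀ ht1, inv_mul_eq_div, div_le_iff₀ hs1,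
    mul_comm (Real.exp (|s - t| / (2 * δ)))]
  exact h1

theorem hh_le {n : ℕ} (δ : ℝ) (h0 : 0 < δ) (x X : Fin n → ℝ) (hx : x ∈ BB n δ) (hX : X ∈ BB n δ) :
    hh x ≤ hh X * Real.exp ((∑ j, |x j - X j|) / (2 * δ)) := by
  unfold hh
  rw [Finset.sum_div, Real.exp_sum, ← Finset.prod_mul_distrib]
  refine Finset.prod_le_prod (fun j _ => inv_nonneg.2 (Real.sqrt_nonneg _)) fun j _ => ?_
  exact h35_coord h0 (hx.1 j) (hx.2 j) (hX.1 j) (hX.2 j)

private lemma h35_cs {n K : ℕ} (a : Fin n → ℝ) (ha : ∑ j, a j ^ 2 ≤ n / K) :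
    ∑ j, |a j| ≤ n / √K := by
  have h1 : (∑ j, |a j|) ^ 2 ≤ n * ∑ j, |a j| ^ 2 := by
    have := sq_sum_le_card_mul_sum_sq (s := (Finset.univ : Finset (Fin n))) (f := fun j => |a j|)
    simpa using this
  have h2 : (∑ j, |a j|) ^ 2 ≤ (n : ℝ) ^ 2 / K := by
    refine h1.trans ?_
    have e1 : ∑ j, |a j| ^ 2 = ∑ j, a j ^ 2 := Finset.sum_congr rfl fun j _ => sq_abs _
    rw [e1, sq, mul_div_assoc]
    exact mul_le_mul_of_nonneg_left ha (Nat.cast_nonneg n)
  have h3 := Real.le_sqrt_of_sq_le h2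
  rwa [Real.sqrt_div (by positivity), Real.sqrt_sq (Nat.cast_nonneg n)] at h3

theorem l1_le {n K : ℕ} (x X y : Fin n → ℝ) (hx : ∑ j, (x j - y j) ^ 2 ≤ n / K)
    (hX : ∑ j, (X j - y j) ^ 2 ≤ n / K) : ∑ j, |x j - X j| ≤ 2 * n / √K := by
  have h1 := h35_cs _ hx
  have h2 := h35_cs _ hX
  calc ∑ j, |x j - X j| ≤ ∑ j, (|x j - y j| + |X j - y j|) := by
        refine Finset.sum_le_sum fun j _ => ?_
        have e1 : x j - X j = (x j - y j) - (X j - y j) := by ring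
        rw [e1]
        exact abs_sub _ _
    _ = ∑ j, |x j - y j| + ∑ j, |X j - y j| := Finset.sum_add_distrib
    _ ≤ n / √K + n / √K := add_le_add h1 h2
    _ = 2 * n / √K := by ring

end Pool.Agent.Helper80.CS
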