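import Pool.Agent.Helper80.CS.Defs

/-!
# CS-NET: Maurey's lemma

`x = ∑ w i • v i` with `w ≥ 0`, `∑ w = 1`. By induction on `K` there is `t : Fin K → Fin (n+1)` with
`∑ j, (∑ k, (v (t k) j - x j))^2 ≤ K * n`: if `y j = ∑ k, (v (t k) j - x j)`, then
`∑ i, w i * ∑ j, y j * (v i j - x j) = 0`, so there is `i` with `∑ j, y j * (v i j - x j) ≤ 0`, and
`∑ j (y j + v i j - x j)^2 ≤ ∑ y j^2 + n` as `|v i j - x j| ≤ 1` (use `Fin.snoc t i`).
Divide by `K^2`.
-/

set_option autoImplicit false

namespace Pool.Agent.Helper80.CS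

theorem net {n : ℕ} (v : Fin (n + 1) → Fin n → ℝ) (hv0 : ∀ i j, 0 ≤ v i j) (hv1 : ∀ i j, v i j ≤ 1)
    (K : ℕ) (hK : 1 ≤ K) (x : Fin n → ℝ) (hx : x ∈ convexHull ℝ (Set.range v)) :
    ∃ t : Fin K → Fin (n + 1), ∑ j, (x j - (∑ k, v (t k) j) / K) ^ 2 ≤ n / K := by
  rw [convexHull_range_eq_exists_affineCombination] at hx
  obtain ⟨s, w, hw0, hw1, hwx⟩ := hx
  rw [Finset.affineCombination_eq_linear_combination _ _ _ hw1] at hwx
  have hxj : ∀ j, x j = ∑ i ∈ s, w i * v i j := by
    intro j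
    rw [← hwx, Finset.sum_apply]
    rfl
  have hx0 : ∀ j, 0 ≤ x j := by
    intro j
    rw [hxj]
    exact Finset.sum_nonneg fun i hi => mul_nonneg (hw0 i hi) (hv0 i j)
  have hx1 : ∀ j, x j ≤ 1 := by
    intro j
    rw [hxj, ← hw1]
    exact Finset.sum_le_sum fun i hi => mul_le_of_le_one_right (hw0 i hi) (hv1 i j)
  have key : ∀ K : ℕ, ∃ t : Fin K → Fin (n + 1),
      ∑ j, (∑ k, (v (t k) j - x j)) ^ 2 ≤ K * n := by
    intro K
    induction K with
    | zero => exact ⟨Fin.elim0, by simp⟩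
    | succ K ih =>
      obtain ⟨t, ht⟩ := ih
      obtain ⟨y, hy⟩ : ∃ y : Fin n → ℝ, ∀ j, y j = ∑ k, (v (t k) j - x j) := ⟨_, fun _ => rfl⟩
      have hsum : ∑ i ∈ s, w i * ∑ j, y j * (v i j - x j) = 0 := by
        have h1 : ∀ i ∈ s, w i * ∑ j, y j * (v i j - x j) =
            ∑ j, y j * (w i * v i j - w i * x j) := by
          intro i _
          rw [Finset.mul_sum]
          exact Finset.sum_congr rfl fun j _ => by ring
        rw [Finset.sum_congr rfl h1, Finset.sum_comm]
        refine Finset.sum_eq_zero fun j _ => ?_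
        rw [← Finset.mul_sum, Finset.sum_sub_distrib, ← Finset.sum_mul, hw1, ← hxj, one_mul,
          sub_self, mul_zero]
      obtain ⟨i, hi⟩ : ∃ i, ∑ j, y j * (v i j - x j) ≤ 0 := by
        by_contra hcon
        push Not at hcon
        have h2 := (Finset.sum_eq_zero_iff_of_nonneg
          (fun i hi => mul_nonneg (hw0 i hi) (hcon i).le)).1 hsum
        have h3 : ∑ i ∈ s, w i = 0 := Finset.sum_eq_zero fun i hi =>
          (mul_eq_zero.1 (h2 i hi)).resolve_right (hcon i).ne'
        rw [hw1] at h3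
        exact one_ne_zero h3
      refine ⟨Fin.snoc t i, ?_⟩
      have h4 : ∀ j, (∑ k, (v ((Fin.snoc t i : Fin (K + 1) → Fin (n + 1)) k) j - x j)) =
          y j + (v i j - x j) := by
        intro j
        rw [Fin.sum_univ_castSucc, hy]
        simp only [Fin.snoc_castSucc, Fin.snoc_last]
      have h5 : ∀ j, (v i j - x j) ^ 2 ≤ 1 := by
        intro j
        have a1 := hv0 i j
        have a2 := hv1 i j
        have a3 := hx0 j
        have a4 := hx1 j
        have a5 : |v i j - x j| ≤ 1 := by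
          rw [abs_le]
          constructor <;> linarith
        exact (sq_le_one_iff_abs_le_one _).2 a5
      calc ∑ j, (∑ k, (v ((Fin.snoc t i : Fin (K + 1) → Fin (n + 1)) k) j - x j)) ^ 2
          = ∑ j, (y j ^ 2 + 2 * (y j * (v i j - x j)) + (v i j - x j) ^ 2) := by
            refine Finset.sum_congr rfl fun j _ => ?_
            rw [h4]
            ring
        _ = ∑ j, y j ^ 2 + 2 * ∑ j, y j * (v i j - x j) + ∑ j, (v i j - x j) ^ 2 := by
            rw [Finset.sum_add_distrib, Finset.sum_add_distrib, Finset.mul_sum]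
        _ ≤ K * n + 2 * 0 + ∑ _j : Fin n, 1 := by
            refine add_le_add (add_le_add ?_ ?_) (Finset.sum_le_sum fun j _ => h5 j)
            · simpa only [hy] using ht
            · exact mul_le_mul_of_nonneg_left hi (by norm_num)
        _ = ((K + 1 : ℕ) : ℝ) * n := by
            simp
            ring
  obtain ⟨t, ht⟩ := key K
  refine ⟨t, ?_⟩
  have hKr : (0 : ℝ) < K := by exact_mod_cast hK
  have h6 : ∀ j, (x j - (∑ k, v (t k) j) / K) ^ 2 = (∑ k, (v (t k) j - x j)) ^ 2 / K ^ 2 := by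
    intro j
    rw [Finset.sum_sub_distrib, Finset.sum_const, Finset.card_univ, Fintype.card_fin, nsmul_eq_mul]
    field_simp
    ring
  rw [Finset.sum_congr rfl fun j _ => h6 j, ← Finset.sum_div, div_le_div_iff₀ (by positivity) hKr]
  calc (∑ j, (∑ k, (v (t k) j - x j)) ^ 2) * K ≤ (K * n) * K :=
        mul_le_mul_of_nonneg_right ht hKr.le
    _ = n * K ^ 2 := by ring

end Pool.Agent.Helper80.CS
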