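import Pool.Agent.Helper80.CS.Cell
import Pool.Agent.Helper80.CS.Net
import Pool.Agent.Helper80.CS.Int
import Pool.Agent.Helper80.CS.Lip

/-!
# CS-COV: the bound for covers
-/

set_option autoImplicit false

namespace Pool.Agent.Helper80.CS

open MeasureTheory

private lemma hh_nonneg {n : ℕ} (x : Fin n → ℝ) : 0 ≤ hh x :=
  Finset.prod_nonneg fun _ _ => inv_nonneg.2 (Real.sqrt_nonneg _)

private lemma hh_mul {n : ℕ} {δ : ℝ} (h0 : 0 < δ) {X : Fin n → ℝ} (hX : X ∈ BB n δ) :
    hh X * ∏ j, √(X j * (1 - X j)) = 1 := by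
  unfold hh
  rw [← Finset.prod_mul_distrib]
  refine Finset.prod_eq_one fun j _ => ?_
  have h1 := hX.1 j
  have h2 := hX.2 j
  simp only at h1 h2
  have h3 : 0 < X j * (1 - X j) := mul_pos (by linarith) (by linarith)
  exact inv_mul_cancel₀ (Real.sqrt_pos.2 h3).ne'

/-- the pieces -/
private def pc {n : ℕ} (v : Fin (n + 1) → Fin n → ℝ) (δ : ℝ) (K : ℕ) (t : Fin K → Fin (n + 1)) :
    Set (Fin n → ℝ) :=
  (convexHull ℝ (Set.range v) ∩ BB n δ) ∩ {x | ∑ j, (x j - (∑ k, v (t k) j) / K) ^ 2 ≤ n / K}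

private lemma pc_closed {n : ℕ} (v : Fin (n + 1) → Fin n → ℝ) (δ : ℝ) (K : ℕ)
    (t : Fin K → Fin (n + 1)) : IsClosed (pc v δ K t) := by
  refine IsClosed.inter (IsClosed.inter ?_ isClosed_Icc) ?_
  · exact (Set.finite_range v).isClosed_convexHull ℝ
  · exact isClosed_le (by fun_prop) continuous_const

private lemma pc_convex {n : ℕ} (v : Fin (n + 1) → Fin n → ℝ) (δ : ℝ) (K : ℕ)
    (t : Fin K → Fin (n + 1)) : Convex ℝ (pc v δ K t) := by
  refine Convex.inter (Convex.inter (convex_convexHull ℝ _) (convex_Icc _ _)) ?_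
  have h : ConvexOn ℝ Set.univ
      (fun x : Fin n → ℝ => ∑ j, (x j - (∑ k, v (t k) j) / K) ^ 2) := by
    refine ⟨convex_univ, fun x _ y _ a b ha hb hab => ?_⟩
    simp only [smul_eq_mul, Pi.add_apply, Pi.smul_apply]
    rw [Finset.mul_sum, Finset.mul_sum, ← Finset.sum_add_distrib]
    refine Finset.sum_le_sum fun j _ => ?_
    set c := (∑ k, v (t k) j) / (K : ℝ)
    have h1 : a * x j + b * y j - c = a * (x j - c) + b * (y j - c) := by
      have : c = (a + b) * c := by rw [hab, one_mul]
      linear_combination -this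
    rw [h1]
    have h2 : b = 1 - a := by linarith
    subst h2
    nlinarith [mul_nonneg (mul_nonneg ha hb) (sq_nonneg ((x j - c) - (y j - c)))]
  simpa using h.convex_le ((n : ℝ) / K)

theorem cover {n N : ℕ} (v : Fin N → Fin (n + 1) → Fin n → ℝ)
    (hv : ∀ s, AffineIndependent ℝ (v s)) (hv0 : ∀ s i j, 0 ≤ v s i j)
    (hv1 : ∀ s i j, v s i j ≤ 1)
    (hcov : Set.Icc (0 : Fin n → ℝ) 1 ⊆ ⋃ s, convexHull ℝ (Set.range (v s)))
    (K : ℕ) (hK : 1 ≤ K) (δ : ℝ) (h0 : 0 < δ) (h1 : δ < 1 / 2) :
    (2 * Real.arcsin (1 - 2 * δ)) ^ n * √(((n : ℝ) + 1) ^ (n + 1)) ≤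
      N * ((n : ℝ) + 1) ^ K * (Real.exp n * (n + 1)) * Real.exp (n / (δ * √K)) := by
  rw [← int_hh n δ h0 h1]
  have hW : 0 < √(((n : ℝ) + 1) ^ (n + 1)) := Real.sqrt_pos.2 (by positivity)
  have hKs : 0 < √(K : ℝ) := Real.sqrt_pos.2 (by exact_mod_cast hK)
  have hint := integrable_hh n δ h0
  have hsubB : ∀ (s : Fin N) (t : Fin K → Fin (n + 1)), pc (v s) δ K t ⊆ BB n δ :=
    fun s t x hx => hx.1.2
  have hBm : MeasurableSet (BB n δ) := measurableSet_Icc
  -- each piece
  have hpiece : ∀ (s : Fin N) (t : Fin K → Fin (n + 1)),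
      (∫ x in pc (v s) δ K t, hh x) * √(((n : ℝ) + 1) ^ (n + 1)) ≤
        (Real.exp n * (n + 1)) * Real.exp (n / (δ * √K)) := by
    intro s t
    have hR : 0 ≤ (Real.exp n * ((n : ℝ) + 1)) * Real.exp (n / (δ * √K)) := by positivity
    set S := pc (v s) δ K t with hS
    have hSm : MeasurableSet S := (pc_closed (v s) δ K t).measurableSet
    by_cases hvol : volume S = 0
    · rw [setIntegral_measure_zero _ hvol, zero_mul]
      exact hR
    · obtain ⟨X, hX, hXb⟩ := cell (v s) (hv s) (hv0 s) (hv1 s) S (pc_convex (v s) δ K t)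
        (pc_closed (v s) δ K t) (fun x hx => hx.1.1) hvol
      have hSfin : volume S ≠ ⊤ :=
        ne_top_of_le_ne_top (isCompact_Icc.measure_ne_top) (measure_mono (hsubB s t))
      have hbd : ∀ x ∈ S, hh x ≤ hh X * Real.exp (n / (δ * √K)) := by
        intro x hx
        refine (hh_le δ h0 x X hx.1.2 hX.1.2).trans ?_
        refine mul_le_mul_of_nonneg_left ?_ (hh_nonneg X)
        rw [Real.exp_le_exp]
        have h2 := l1_le (K := K) x X _ hx.2 hX.2
        calc (∑ j, |x j - X j|) / (2 * δ) ≤ (2 * n / √K) / (2 * δ) := by gcongr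
          _ = n / (δ * √K) := by field_simp
      have h3 : ∫ x in S, hh x ≤ hh X * Real.exp (n / (δ * √K)) * (volume S).toReal := by
        have h4 : ∫ x in S, hh x ≤ ∫ _x in S, hh X * Real.exp (n / (δ * √K)) := by
          refine setIntegral_mono_on (hint.mono_set (hsubB s t)) ?_ hSm hbd
          exact integrableOn_const hSfin
        refine h4.trans (le_of_eq ?_)
        rw [setIntegral_const, smul_eq_mul, mul_comm]
        rfl
      calc (∫ x in S, hh x) * √(((n : ℝ) + 1) ^ (n + 1))
          ≤ (hh X * Real.exp (n / (δ * √K)) * (volume S).toReal) * √(((n : ℝ) + 1) ^ (n + 1)) := by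
            gcongr
        _ = hh X * Real.exp (n / (δ * √K)) * ((volume S).toReal * √(((n : ℝ) + 1) ^ (n + 1))) := by
            ring
        _ ≤ hh X * Real.exp (n / (δ * √K)) * (Real.exp n * (n + 1) * ∏ j, √(X j * (1 - X j))) := by
            have := hh_nonneg X
            gcongr
        _ = (hh X * ∏ j, √(X j * (1 - X j))) * ((Real.exp n * (n + 1)) *
              Real.exp (n / (δ * √K))) := by ring
        _ = _ := by rw [hh_mul h0 hX.1.2, one_mul]
  -- the sum
  have hsum : ∫ x in BB n δ, hh x ≤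
      ∑ s : Fin N, ∑ t : Fin K → Fin (n + 1), ∫ x in pc (v s) δ K t, hh x := by
    have hind : ∀ (s : Fin N) (t : Fin K → Fin (n + 1)),
        Integrable ((pc (v s) δ K t).indicator (hh (n := n))) := fun s t =>
      (hint.mono_set (hsubB s t)).integrable_indicator (pc_closed (v s) δ K t).measurableSet
    have e1 : ∀ (s : Fin N) (t : Fin K → Fin (n + 1)), ∫ x in pc (v s) δ K t, hh x =
        ∫ x, (pc (v s) δ K t).indicator (hh (n := n)) x := fun s t =>
      (integral_indicator (pc_closed (v s) δ K t).measurableSet).symm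
    simp only [e1]
    rw [← integral_indicator hBm]
    have e2 : ∑ s : Fin N, ∑ t : Fin K → Fin (n + 1),
        ∫ x, (pc (v s) δ K t).indicator (hh (n := n)) x =
        ∫ x, ∑ s : Fin N, ∑ t : Fin K → Fin (n + 1), (pc (v s) δ K t).indicator (hh (n := n)) x := by
      rw [integral_finsetSum _ fun s _ => integrable_finsetSum _ fun t _ => hind s t]
      refine Finset.sum_congr rfl fun s _ => ?_
      rw [integral_finsetSum _ fun t _ => hind s t]
    rw [e2]
    refine integral_mono (hint.integrable_indicator hBm)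
      (integrable_finsetSum _ fun s _ => integrable_finsetSum _ fun t _ => hind s t) fun x => ?_
    simp only
    have hnn : ∀ (s : Fin N) (t : Fin K → Fin (n + 1)),
        0 ≤ (pc (v s) δ K t).indicator (hh (n := n)) x := fun s t =>
      Set.indicator_nonneg (fun y _ => hh_nonneg y) x
    by_cases hx : x ∈ BB n δ
    · rw [Set.indicator_of_mem hx]
      have hx01 : x ∈ Set.Icc (0 : Fin n → ℝ) 1 :=
        ⟨fun j => by
          have := hx.1 j
          simp only [Pi.zero_apply] at this ⊢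
          linarith, fun j => by
          have := hx.2 j
          simp only [Pi.one_apply] at this ⊢
          linarith⟩
      obtain ⟨s, hs⟩ := Set.mem_iUnion.1 (hcov hx01)
      obtain ⟨t, ht⟩ := net (v s) (hv0 s) (hv1 s) K hK x hs
      have hmem : x ∈ pc (v s) δ K t := ⟨⟨hs, hx⟩, ht⟩
      calc hh x = (pc (v s) δ K t).indicator (hh (n := n)) x := (Set.indicator_of_mem hmem _).symm
        _ ≤ ∑ t : Fin K → Fin (n + 1), (pc (v s) δ K t).indicator (hh (n := n)) x :=
            Finset.single_le_sum (f := fun t : Fin K → Fin (n + 1) =>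
              (pc (v s) δ K t).indicator (hh (n := n)) x) (fun t _ => hnn s t) (Finset.mem_univ t)
        _ ≤ _ := Finset.single_le_sum (f := fun s : Fin N => ∑ t : Fin K → Fin (n + 1),
              (pc (v s) δ K t).indicator (hh (n := n)) x)
              (fun s _ => Finset.sum_nonneg fun t _ => hnn s t) (Finset.mem_univ s)
    · rw [Set.indicator_of_notMem hx]
      exact Finset.sum_nonneg fun s _ => Finset.sum_nonneg fun t _ => hnn s t
  calc (∫ x in BB n δ, hh x) * √(((n : ℝ) + 1) ^ (n + 1))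
      ≤ (∑ s : Fin N, ∑ t : Fin K → Fin (n + 1), ∫ x in pc (v s) δ K t, hh x) *
          √(((n : ℝ) + 1) ^ (n + 1)) := by gcongr
    _ = ∑ s : Fin N, ∑ t : Fin K → Fin (n + 1), (∫ x in pc (v s) δ K t, hh x) *
          √(((n : ℝ) + 1) ^ (n + 1)) := by
        rw [Finset.sum_mul]
        exact Finset.sum_congr rfl fun s _ => by rw [Finset.sum_mul]
    _ ≤ ∑ _s : Fin N, ∑ _t : Fin K → Fin (n + 1),
          (Real.exp n * ((n : ℝ) + 1)) * Real.exp (n / (δ * √K)) :=
        Finset.sum_le_sum fun s _ => Finset.sum_le_sum fun t _ => hpiece s t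
    _ = _ := by
        rw [Finset.sum_const, Finset.sum_const, Finset.card_univ, Finset.card_univ,
          Fintype.card_fin, Fintype.card_fun, Fintype.card_fin, Fintype.card_fin, nsmul_eq_mul,
          nsmul_eq_mul]
        push_cast
        ring

end Pool.Agent.Helper80.CS
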