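import Mathlib

/-!
# Project CS (MP_980383_co): number of simplices in the cube. Definitions

Paper proof: /team-store/helper80_MP_980383_proof.md.
-/

set_option autoImplicit false

namespace Pool.Agent.Helper80.CS

open MeasureTheory

/-- The matrix with the rows `(1, v i)`. -/
noncomputable def MM {n : ℕ} (v : Fin (n + 1) → Fin n → ℝ) :
    Matrix (Fin (n + 1)) (Fin (n + 1)) ℝ :=
  Matrix.of fun i j => (Fin.cons (1 : ℝ) (v i) : Fin (n + 1) → ℝ) j

/-- The combination of the points `v i` with the weights `μ i`. -/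
noncomputable def XX {n : ℕ} (μ : Fin (n + 1) → ℝ) (v : Fin (n + 1) → Fin n → ℝ) (j : Fin n) : ℝ :=
  ∑ i, μ i * v i j

/-- The weight function `∏ (x_j (1 - x_j))^(-1/2)`. -/
noncomputable def hh {n : ℕ} (x : Fin n → ℝ) : ℝ := ∏ j, (√(x j * (1 - x j)))⁻¹

/-- The box `[δ, 1 - δ]^n`. -/
def BB (n : ℕ) (δ : ℝ) : Set (Fin n → ℝ) := Set.Icc (fun _ => δ) (fun _ => 1 - δ)

/-- The affine parametrization of the simplex with the vertices `v`, base point `v 0`. -/
noncomputable def ph {n : ℕ} (v : Fin (n + 1) → Fin n → ℝ) (l : Fin n → ℝ) : Fin n → ℝ :=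
  fun j => v 0 j + ∑ i, l i * (v i.succ j - v 0 j)

end Pool.Agent.Helper80.CS
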