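import Pool.Agent.Helper80.CS.Defs

/-!
# CS-EXP: a set of nonnegative vectors with the centroid `m` has volume at most `e^n ∏ m_i`

`g i t = exp (-t / m i)` for `0 ≤ t`, `0` for `t < 0`, `∫ g i = m i`. So
`∏ m i = ∫ ∏ g i (x i)` (`integral_fintype_prod_volume_eq_prod`) `≥ ∫ x in L, exp (-∑ x i / m i)
≥ ∫ x in L, exp (-n) * (1 + n - ∑ x i / m i) = exp (-n) * volume L` (`exp (-t) ≥ exp (-n) (1 + n - t)` is
`Real.add_one_le_exp`; the mean of `∑ x i / m i` over `L` is `n`). `L` is contained in the bounded box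
`[0,1]^n`, so everything is integrable.
-/

set_option autoImplicit false

namespace Pool.Agent.Helper80.CS

open MeasureTheory

private lemma exp_ici {a : ℝ} (ha : 0 < a) :
    Integrable ((Set.Ici (0 : ℝ)).indicator (fun t => Real.exp (-t / a))) ∧
      ∫ t, (Set.Ici (0 : ℝ)).indicator (fun t => Real.exp (-t / a)) t = a := by
  have ha' : -a⁻¹ < 0 := by
    have := inv_pos.2 ha
    linarith
  have hf : (fun t : ℝ => Real.exp (-t / a)) = fun t => Real.exp (-a⁻¹ * t) := by
    funext t
    congr 1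
    rw [div_eq_inv_mul]
    ring
  rw [hf]
  constructor
  · rw [integrable_indicator_iff measurableSet_Ici, integrableOn_Ici_iff_integrableOn_Ioi]
    exact integrableOn_exp_mul_Ioi ha' 0
  · rw [integral_indicator measurableSet_Ici, integral_Ici_eq_integral_Ioi, integral_exp_mul_Ioi ha' 0]
    rw [mul_zero, Real.exp_zero]
    field_simp

theorem vol_exp {n : ℕ} (L : Set (Fin n → ℝ)) (hL : MeasurableSet L)
    (h0 : ∀ x ∈ L, ∀ i, 0 ≤ x i) (h1 : ∀ x ∈ L, ∀ i, x i ≤ 1) (m : Fin n → ℝ) (hm : ∀ i, 0 < m i)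
    (hmean : ∀ i, ∫ x in L, x i = m i * (volume L).toReal) :
    (volume L).toReal ≤ Real.exp n * ∏ i, m i := by
  classical
  have hsub : L ⊆ Set.Icc (fun _ => (0 : ℝ)) (fun _ => 1) := fun x hx => ⟨fun i => h0 x hx i, fun i => h1 x hx i⟩
  have hLfin : volume L ≠ ⊤ := ((measure_mono hsub).trans_lt isCompact_Icc.measure_lt_top).ne
  set V : ℝ := (volume L).toReal with hV
  set g : Fin n → ℝ → ℝ := fun i => (Set.Ici (0 : ℝ)).indicator (fun t => Real.exp (-t / m i)) with hg
  have hgi : ∀ i, Integrable (g i) := fun i => (exp_ici (hm i)).1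
  have hgm : ∀ i, ∫ t, g i t = m i := fun i => (exp_ici (hm i)).2
  have hprod : ∫ x : Fin n → ℝ, ∏ i, g i (x i) = ∏ i, m i := by
    rw [integral_fintype_prod_volume_eq_prod (𝕜 := ℝ) g]
    exact Finset.prod_congr rfl fun i _ => hgm i
  have hprodi : Integrable (fun x : Fin n → ℝ => ∏ i, g i (x i)) :=
    Integrable.fintype_prod (𝕜 := ℝ) (f := g) hgi
  have hg0 : ∀ i t, 0 ≤ g i t := fun i t => Set.indicator_nonneg (fun _ _ => (Real.exp_pos _).le) t
  -- pointwise on `L`
  have hpt : ∀ x ∈ L, Real.exp (-n) * (1 + n - ∑ i, x i / m i) ≤ ∏ i, g i (x i) := by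
    intro x hx
    have e1 : ∏ i, g i (x i) = Real.exp (-∑ i, x i / m i) := by
      rw [← Finset.sum_neg_distrib, Real.exp_sum]
      refine Finset.prod_congr rfl fun i _ => ?_
      simp only [hg]
      rw [Set.indicator_of_mem (show x i ∈ Set.Ici (0 : ℝ) from h0 x hx i), neg_div]
    rw [e1]
    have e2 : Real.exp (-∑ i, x i / m i) = Real.exp (-n) * Real.exp (n - ∑ i, x i / m i) := by
      rw [← Real.exp_add]
      congr 1
      ring
    rw [e2]
    refine mul_le_mul_of_nonneg_left ?_ (Real.exp_pos _).le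
    have := Real.add_one_le_exp ((n : ℝ) - ∑ i, x i / m i)
    linarith
  have hxi : ∀ i, IntegrableOn (fun x : Fin n → ℝ => x i) L := by
    intro i
    refine Measure.integrableOn_of_bounded (M := 1) hLfin (measurable_pi_apply i).aestronglyMeasurable ?_
    refine (ae_restrict_iff' hL).2 (Filter.Eventually.of_forall fun x hx => ?_)
    rw [Real.norm_eq_abs, abs_of_nonneg (h0 x hx i)]
    exact h1 x hx i
  have hsumi : IntegrableOn (fun x : Fin n → ℝ => ∑ i, x i / m i) L :=
    integrable_finsetSum _ fun i _ => (hxi i).div_const _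
  have hconst : IntegrableOn (fun _ : Fin n → ℝ => (1 : ℝ) + n) L := integrableOn_const hLfin
  have hlin : IntegrableOn (fun x : Fin n → ℝ => Real.exp (-n) * (1 + n - ∑ i, x i / m i)) L :=
    (hconst.sub hsumi).const_mul _
  have h2 : ∫ x in L, Real.exp (-n) * (1 + n - ∑ i, x i / m i) = Real.exp (-n) * V := by
    rw [integral_const_mul, integral_sub hconst hsumi, integral_finsetSum _ fun i _ => (hxi i).div_const _]
    have e3 : ∀ i, ∫ x in L, x i / m i = V := by
      intro i
      rw [integral_div, hmean i]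
      field_simp [(hm i).ne']
    rw [Finset.sum_congr rfl fun i _ => e3 i, setIntegral_const, Finset.sum_const, Finset.card_univ,
      Fintype.card_fin, nsmul_eq_mul, smul_eq_mul]
    simp only [Measure.real]
    rw [← hV]
    ring
  have h3 : ∫ x in L, Real.exp (-n) * (1 + n - ∑ i, x i / m i) ≤ ∫ x in L, ∏ i, g i (x i) :=
    setIntegral_mono_on hlin hprodi.integrableOn hL hpt
  have h4 : ∫ x in L, ∏ i, g i (x i) ≤ ∫ x : Fin n → ℝ, ∏ i, g i (x i) :=
    setIntegral_le_integral hprodi (Filter.Eventually.of_forall fun x => Finset.prod_nonneg fun i _ => hg0 i _)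
  have h5 : Real.exp (-n) * V ≤ ∏ i, m i := by
    rw [← h2, ← hprod]
    exact h3.trans h4
  calc V = Real.exp n * (Real.exp (-n) * V) := by
        rw [← mul_assoc, ← Real.exp_add]
        simp
    _ ≤ Real.exp n * ∏ i, m i := mul_le_mul_of_nonneg_left h5 (Real.exp_pos _).le

end Pool.Agent.Helper80.CS
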